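import Pool.Agent.Helper53.SL.St2

/-!
# Project SM: module TOE
-/

set_option autoImplicit false

open Polynomial Filter Topology MeasureTheory Set

namespace Pool.Agent.Helper87.SLM

open Pool.Agent.Helper53.SL

/-- the exponential -/
noncomputable def ex (n : ℕ) (t : ℝ) : ℂ := Complex.exp (n * t * Complex.I)

theorem ex_cont (n : ℕ) : Continuous (ex n) := by
  unfold ex
  fun_prop

theorem ex_norm (n : ℕ) (t : ℝ) : ‖ex n t‖ = 1 := by
  unfold ex
  have : (n * t * Complex.I : ℂ) = ((n * t : ℝ) : ℂ) * Complex.I := by push_cast; ring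
  rw [this, Complex.norm_exp_ofReal_mul_I]

theorem ex_pow (n : ℕ) (t : ℝ) : ex 1 t ^ n = ex n t := by
  unfold ex
  rw [← Complex.exp_nat_mul]
  congr 1
  push_cast
  ring

theorem ex_mul (n m : ℕ) (t : ℝ) : ex n t * ex m t = ex (n + m) t := by
  rw [← ex_pow n, ← ex_pow m, ← pow_add, ex_pow]

theorem ex_conj (n : ℕ) (t : ℝ) : ex n t * (starRingEnd ℂ) (ex n t) = 1 := by
  rw [Complex.mul_conj, Complex.normSq_eq_norm_sq, ex_norm]
  norm_num

theorem orth (n m : ℕ) : ∫ t in (0 : ℝ)..2 * Real.pi, ex n t * (starRingEnd ℂ) (ex m t) =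
    if n = m then ((2 * Real.pi : ℝ) : ℂ) else 0 := by
  split_ifs with h
  · subst h
    simp only [ex_conj]
    rw [intervalIntegral.integral_const, sub_zero]
    simp
  · have hc : (((n : ℂ) - m) * Complex.I) ≠ 0 := by
      refine mul_ne_zero (sub_ne_zero.2 ?_) Complex.I_ne_zero
      exact_mod_cast h
    have e : ∀ t : ℝ, ex n t * (starRingEnd ℂ) (ex m t) = Complex.exp ((((n : ℂ) - m) * Complex.I) * t) := by
      intro t
      unfold ex
      rw [← Complex.exp_conj, ← Complex.exp_add]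
      congr 1
      simp only [map_mul, Complex.conj_I, Complex.conj_ofReal, map_natCast]
      ring
    simp only [e]
    rw [integral_exp_mul_complex hc]
    have h1 : Complex.exp ((((n : ℂ) - m) * Complex.I) * ((2 * Real.pi : ℝ) : ℂ)) = 1 := by
      rw [Complex.exp_eq_one_iff]
      refine ⟨(n : ℤ) - m, ?_⟩
      push_cast
      ring
    rw [h1]
    simp

theorem term_eq (b : ℕ → ℂ) (r : ℝ) (n : ℕ) (t : ℝ) :
    b n * ((r : ℂ) * ex 1 t) ^ n = (b n * (r : ℂ) ^ n) * ex n t := by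
  rw [mul_pow, ex_pow]
  ring

section main

variable {E : ℂ → ℂ} {b : ℕ → ℂ} (hE : ∀ z : ℂ, ‖z‖ < 1 → HasSum (fun n : ℕ => b n * z ^ n) (E z))
  {r : ℝ} (h0 : 0 < r) (h1 : r < 1)

include hE h0 h1

theorem arg_lt (t : ℝ) : ‖(r : ℂ) * ex 1 t‖ < 1 := by
  rw [norm_mul, ex_norm, mul_one, Complex.norm_real, Real.norm_of_nonneg h0.le]
  exact h1

theorem summ : Summable (fun n : ℕ => ‖b n * (r : ℂ) ^ n‖) := by
  have h : ‖(r : ℂ)‖ < 1 := by
    rw [Complex.norm_real, Real.norm_of_nonneg h0.le]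
    exact h1
  exact (hE _ h).summable.norm

theorem E_sum (t : ℝ) : HasSum (fun n : ℕ => (b n * (r : ℂ) ^ n) * ex n t) (E ((r : ℂ) * ex 1 t)) := by
  have := hE _ (arg_lt hE h0 h1 t)
  simpa only [term_eq] using this

theorem E_cont : Continuous (fun t : ℝ => E ((r : ℂ) * ex 1 t)) := by
  have e : (fun t : ℝ => E ((r : ℂ) * ex 1 t)) = fun t => ∑' n : ℕ, (b n * (r : ℂ) ^ n) * ex n t := by
    funext t
    exact (E_sum hE h0 h1 t).tsum_eq.symm
  rw [e]
  refine continuous_tsum (fun n => continuous_const.mul (ex_cont n)) (summ hE h0 h1) ?_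
  intro n t
  rw [norm_mul, ex_norm, mul_one]

theorem coef (k m : ℕ) :
    ∫ t in (0 : ℝ)..2 * Real.pi, E ((r : ℂ) * ex 1 t) * ex k t * (starRingEnd ℂ) (ex m t) =
      if k ≤ m then ((2 * Real.pi : ℝ) : ℂ) * (b (m - k) * (r : ℂ) ^ (m - k)) else 0 := by
  have hs := intervalIntegral.hasSum_integral_of_dominated_convergence (μ := volume) (a := 0) (b := 2 * Real.pi)
    (F := fun (n : ℕ) (t : ℝ) => (b n * (r : ℂ) ^ n) * (ex (n + k) t * (starRingEnd ℂ) (ex m t)))
    (f := fun t : ℝ => E ((r : ℂ) * ex 1 t) * ex k t * (starRingEnd ℂ) (ex m t))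
    (fun (n : ℕ) (_ : ℝ) => ‖b n * (r : ℂ) ^ n‖)
    (fun n => (continuous_const.mul ((ex_cont (n + k)).mul
      (Complex.continuous_conj.comp (ex_cont m)))).aestronglyMeasurable)
    (fun n => Eventually.of_forall fun t _ => by
      have hn : ‖ex (n + k) t * (starRingEnd ℂ) (ex m t)‖ = 1 := by
        rw [norm_mul, ex_norm, RCLike.norm_conj, ex_norm, mul_one]
      rw [norm_mul (b n * (r : ℂ) ^ n), hn, mul_one])
    (Eventually.of_forall fun t _ => summ hE h0 h1)
    intervalIntegrable_const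
    (Eventually.of_forall fun t _ => by
      have h2 := ((E_sum hE h0 h1 t).mul_right (ex k t)).mul_right ((starRingEnd ℂ) (ex m t))
      refine h2.congr_fun ?_
      intro n
      rw [← ex_mul]
      ring)
  have hs' : HasSum (fun n : ℕ => (b n * (r : ℂ) ^ n) * (if n + k = m then ((2 * Real.pi : ℝ) : ℂ) else 0))
      (∫ t in (0 : ℝ)..2 * Real.pi, E ((r : ℂ) * ex 1 t) * ex k t * (starRingEnd ℂ) (ex m t)) := by
    refine hs.congr_fun ?_
    intro n
    rw [intervalIntegral.integral_const_mul, orth]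
  refine hs'.unique ?_
  split_ifs with h
  · have h3 : HasSum (fun n : ℕ => (b n * (r : ℂ) ^ n) * (if n + k = m then ((2 * Real.pi : ℝ) : ℂ) else 0))
        ((b (m - k) * (r : ℂ) ^ (m - k)) * (if m - k + k = m then ((2 * Real.pi : ℝ) : ℂ) else 0)) := by
      refine hasSum_single (m - k) ?_
      intro n hn
      rw [if_neg (by omega), mul_zero]
    rw [if_pos (by omega)] at h3
    rw [mul_comm ((2 * Real.pi : ℝ) : ℂ)]
    exact h3
  · have h4 : (fun n : ℕ => (b n * (r : ℂ) ^ n) * (if n + k = m then ((2 * Real.pi : ℝ) : ℂ) else 0)) = fun _ => 0 := by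
      funext n
      rw [if_neg (by omega), mul_zero]
    rw [h4]
    exact hasSum_zero

end main

/-- pairing with a trigonometric polynomial -/
theorem pair (f : ℝ → ℂ) (hf : Continuous f) (a : ℕ → ℂ) (N : ℕ)
    (h : ∀ m < N, ∫ t in (0 : ℝ)..2 * Real.pi, f t * (starRingEnd ℂ) (ex m t) = ((2 * Real.pi : ℝ) : ℂ) * a m) :
    ∫ t in (0 : ℝ)..2 * Real.pi, (f t * (starRingEnd ℂ) (∑ m ∈ Finset.range N, a m * ex m t)).re =
      2 * Real.pi * ∑ m ∈ Finset.range N, ‖a m‖ ^ 2 := by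
  have hc : Continuous (fun t => f t * (starRingEnd ℂ) (∑ m ∈ Finset.range N, a m * ex m t)) :=
    hf.mul (Complex.continuous_conj.comp (continuous_finsetSum _ fun m _ => continuous_const.mul (ex_cont m)))
  have e1 := Complex.reCLM.intervalIntegral_comp_comm (μ := volume) (hc.intervalIntegrable 0 (2 * Real.pi))
  have e2 : ∫ t in (0 : ℝ)..2 * Real.pi, (f t * (starRingEnd ℂ) (∑ m ∈ Finset.range N, a m * ex m t)) =
      ((2 * Real.pi : ℝ) : ℂ) * ∑ m ∈ Finset.range N, a m * (starRingEnd ℂ) (a m) := by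
    have e3 : ∀ t : ℝ, f t * (starRingEnd ℂ) (∑ m ∈ Finset.range N, a m * ex m t) =
        ∑ m ∈ Finset.range N, (starRingEnd ℂ) (a m) * (f t * (starRingEnd ℂ) (ex m t)) := by
      intro t
      rw [map_sum, Finset.mul_sum]
      refine Finset.sum_congr rfl fun m _ => ?_
      rw [map_mul]
      ring
    simp only [e3]
    rw [intervalIntegral.integral_finsetSum, Finset.mul_sum]
    · refine Finset.sum_congr rfl fun m hm => ?_
      rw [intervalIntegral.integral_const_mul, h m (Finset.mem_range.1 hm)]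
      ring
    · intro m _
      exact (continuous_const.mul (hf.mul (Complex.continuous_conj.comp (ex_cont m)))).intervalIntegrable _ _
  have e4 : ∫ t in (0 : ℝ)..2 * Real.pi, (f t * (starRingEnd ℂ) (∑ m ∈ Finset.range N, a m * ex m t)).re =
      (∫ t in (0 : ℝ)..2 * Real.pi, (f t * (starRingEnd ℂ) (∑ m ∈ Finset.range N, a m * ex m t))).re := e1
  rw [e4, e2]
  have e5 : ∑ m ∈ Finset.range N, a m * (starRingEnd ℂ) (a m) = ((∑ m ∈ Finset.range N, ‖a m‖ ^ 2 : ℝ) : ℂ) := by
    rw [Complex.ofReal_sum]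
    refine Finset.sum_congr rfl fun m _ => ?_
    rw [Complex.mul_conj, Complex.normSq_eq_norm_sq]
  rw [e5, ← Complex.ofReal_mul, Complex.ofReal_re]

theorem poly_coef (a : ℕ → ℂ) (N m : ℕ) (hm : m < N) :
    ∫ t in (0 : ℝ)..2 * Real.pi, (∑ k ∈ Finset.range N, a k * ex k t) * (starRingEnd ℂ) (ex m t) =
      ((2 * Real.pi : ℝ) : ℂ) * a m := by
  have e3 : ∀ t : ℝ, (∑ k ∈ Finset.range N, a k * ex k t) * (starRingEnd ℂ) (ex m t) =
      ∑ k ∈ Finset.range N, a k * (ex k t * (starRingEnd ℂ) (ex m t)) := by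
    intro t
    rw [Finset.sum_mul]
    refine Finset.sum_congr rfl fun k _ => ?_
    ring
  simp only [e3]
  rw [intervalIntegral.integral_finsetSum]
  · simp only [intervalIntegral.integral_const_mul, orth, mul_ite, mul_zero]
    rw [Finset.sum_ite_eq' (Finset.range N) m, if_pos (Finset.mem_range.2 hm)]
    ring
  · intro k _
    exact (continuous_const.mul ((ex_cont k).mul (Complex.continuous_conj.comp (ex_cont m)))).intervalIntegrable _ _

theorem poly_cont (a : ℕ → ℂ) (N : ℕ) : Continuous (fun t => ∑ k ∈ Finset.range N, a k * ex k t) :=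
  continuous_finsetSum _ fun m _ => continuous_const.mul (ex_cont m)

/-- Parseval for trigonometric polynomials -/
theorem parseval (a : ℕ → ℂ) (N : ℕ) :
    ∫ t in (0 : ℝ)..2 * Real.pi, ‖∑ k ∈ Finset.range N, a k * ex k t‖ ^ 2 =
      2 * Real.pi * ∑ m ∈ Finset.range N, ‖a m‖ ^ 2 := by
  rw [← pair _ (poly_cont a N) a N (fun m hm => poly_coef a N m hm)]
  refine intervalIntegral.integral_congr fun t _ => ?_
  show ‖∑ k ∈ Finset.range N, a k * ex k t‖ ^ 2 = _
  rw [Complex.mul_conj, Complex.ofReal_re, Complex.normSq_eq_norm_sq]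

/-- Bessel's inequality -/
theorem bessel (f : ℝ → ℂ) (hf : Continuous f) (a : ℕ → ℂ) (N : ℕ)
    (h : ∀ m < N, ∫ t in (0 : ℝ)..2 * Real.pi, f t * (starRingEnd ℂ) (ex m t) = ((2 * Real.pi : ℝ) : ℂ) * a m) :
    2 * Real.pi * ∑ m ∈ Finset.range N, ‖a m‖ ^ 2 ≤ ∫ t in (0 : ℝ)..2 * Real.pi, ‖f t‖ ^ 2 := by
  have h1 := pair f hf a N h
  have h2 := parseval a N
  have hp := poly_cont a N
  have hpi : (0 : ℝ) ≤ 2 * Real.pi := by positivity
  have h3 : 0 ≤ ∫ t in (0 : ℝ)..2 * Real.pi, ‖f t - ∑ k ∈ Finset.range N, a k * ex k t‖ ^ 2 :=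
    intervalIntegral.integral_nonneg hpi fun t _ => by positivity
  have e : ∀ t : ℝ, ‖f t - ∑ k ∈ Finset.range N, a k * ex k t‖ ^ 2 =
      (‖f t‖ ^ 2 + ‖∑ k ∈ Finset.range N, a k * ex k t‖ ^ 2) -
        2 * (f t * (starRingEnd ℂ) (∑ m ∈ Finset.range N, a m * ex m t)).re := by
    intro t
    rw [← Complex.normSq_eq_norm_sq, ← Complex.normSq_eq_norm_sq, ← Complex.normSq_eq_norm_sq, Complex.normSq_sub]
  simp only [e] at h3
  rw [intervalIntegral.integral_sub, intervalIntegral.integral_add, intervalIntegral.integral_const_mul, h1, h2] at h3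
  · linarith
  · exact (hf.norm.pow 2).intervalIntegrable _ _
  · exact (hp.norm.pow 2).intervalIntegrable _ _
  · exact ((hf.norm.pow 2).add (hp.norm.pow 2)).intervalIntegrable _ _
  · exact (continuous_const.mul (Complex.continuous_re.comp
      (hf.mul (Complex.continuous_conj.comp hp)))).intervalIntegrable _ _

theorem hToe : StToe := by
  intro E b M hM hE hB x N
  set c : ℕ → ℂ := fun n => ∑ i ∈ Finset.range (n + 1), b i * (x (n - i) : ℂ) with hc
  -- the inequality on the circle of radius r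
  have key : ∀ r : ℝ, 0 < r → r < 1 →
      ∑ m ∈ Finset.range N, ‖c m‖ ^ 2 * (r ^ m) ^ 2 ≤ M ^ 2 * ∑ k ∈ Finset.range N, x k ^ 2 * (r ^ k) ^ 2 := by
    intro r h0 h1
    set X : ℝ → ℂ := fun t => ∑ k ∈ Finset.range N, ((x k : ℂ) * (r : ℂ) ^ k) * ex k t with hX
    have hXc : Continuous X := poly_cont (fun k => (x k : ℂ) * (r : ℂ) ^ k) N
    have hEc := E_cont hE h0 h1
    have hbes := bessel (fun t => E ((r : ℂ) * ex 1 t) * X t) (hEc.mul hXc) (fun m => c m * (r : ℂ) ^ m) N (by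
      intro m hm
      have e1 : ∀ t : ℝ, E ((r : ℂ) * ex 1 t) * X t * (starRingEnd ℂ) (ex m t) =
          ∑ k ∈ Finset.range N, ((x k : ℂ) * (r : ℂ) ^ k) *
            (E ((r : ℂ) * ex 1 t) * ex k t * (starRingEnd ℂ) (ex m t)) := by
        intro t
        rw [hX]
        show E ((r : ℂ) * ex 1 t) * (∑ k ∈ Finset.range N, ((x k : ℂ) * (r : ℂ) ^ k) * ex k t) *
          (starRingEnd ℂ) (ex m t) = _
        rw [Finset.mul_sum, Finset.sum_mul]
        refine Finset.sum_congr rfl fun k _ => ?_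
        ring
      simp only [e1]
      rw [intervalIntegral.integral_finsetSum]
      · simp only [intervalIntegral.integral_const_mul, coef hE h0 h1]
        have e2 : ∀ k ∈ Finset.range N, ((x k : ℂ) * (r : ℂ) ^ k) *
            (if k ≤ m then ((2 * Real.pi : ℝ) : ℂ) * (b (m - k) * (r : ℂ) ^ (m - k)) else 0) =
            if k ∈ Finset.range (m + 1) then ((2 * Real.pi : ℝ) : ℂ) * ((b (m - k) * (x k : ℂ)) * (r : ℂ) ^ m) else 0 := by
          intro k _
          by_cases hk : k ≤ m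
          · rw [if_pos hk, if_pos (Finset.mem_range.2 (by omega))]
            have : (r : ℂ) ^ m = (r : ℂ) ^ k * (r : ℂ) ^ (m - k) := by
              rw [← pow_add]
              congr 1
              omega
            rw [this]
            ring
          · rw [if_neg hk, if_neg (fun h => hk (by have := Finset.mem_range.1 h; omega)), mul_zero]
        rw [Finset.sum_congr rfl e2, Finset.sum_ite_mem]
        have e3 : Finset.range N ∩ Finset.range (m + 1) = Finset.range (m + 1) := by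
          apply Finset.inter_eq_right.2
          intro k hk
          have := Finset.mem_range.1 hk
          exact Finset.mem_range.2 (by omega)
        rw [e3, ← Finset.mul_sum, ← Finset.sum_mul]
        congr 2
        rw [hc]
        show _ = ∑ i ∈ Finset.range (m + 1), b i * (x (m - i) : ℂ)
        rw [← Finset.sum_range_reflect]
        refine Finset.sum_congr rfl fun k hk => ?_
        have := Finset.mem_range.1 hk
        have e4 : m - (m + 1 - 1 - k) = k := by omega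
        have e5 : m + 1 - 1 - k = m - k := by omega
        rw [e4, e5]
      · intro k _
        exact (continuous_const.mul ((hEc.mul (ex_cont k)).mul
          (Complex.continuous_conj.comp (ex_cont m)))).intervalIntegrable _ _)
    have hpar := parseval (fun k => (x k : ℂ) * (r : ℂ) ^ k) N
    have hpi : (0 : ℝ) < 2 * Real.pi := by positivity
    have hle : ∫ t in (0 : ℝ)..2 * Real.pi, ‖E ((r : ℂ) * ex 1 t) * X t‖ ^ 2 ≤
        ∫ t in (0 : ℝ)..2 * Real.pi, M ^ 2 * ‖X t‖ ^ 2 := by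
      refine intervalIntegral.integral_mono_on hpi.le ?_ ?_ ?_
      · exact ((hEc.mul hXc).norm.pow 2).intervalIntegrable _ _
      · exact (continuous_const.mul (hXc.norm.pow 2)).intervalIntegrable _ _
      · intro t _
        rw [norm_mul, mul_pow]
        have h2 := hB _ (arg_lt hE h0 h1 t)
        gcongr
    rw [intervalIntegral.integral_const_mul] at hle
    have hfin : 2 * Real.pi * ∑ m ∈ Finset.range N, ‖c m * (r : ℂ) ^ m‖ ^ 2 ≤
        2 * Real.pi * (M ^ 2 * ∑ k ∈ Finset.range N, ‖(x k : ℂ) * (r : ℂ) ^ k‖ ^ 2) := by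
      calc 2 * Real.pi * ∑ m ∈ Finset.range N, ‖c m * (r : ℂ) ^ m‖ ^ 2 ≤ _ := hbes
        _ ≤ _ := hle
        _ = M ^ 2 * (2 * Real.pi * ∑ k ∈ Finset.range N, ‖(x k : ℂ) * (r : ℂ) ^ k‖ ^ 2) := by rw [← hpar]
        _ = _ := by ring
    have hfin2 := le_of_mul_le_mul_left hfin hpi
    have hr : ∀ k : ℕ, ‖(r : ℂ) ^ k‖ = r ^ k := by
      intro k
      rw [norm_pow, Complex.norm_real, Real.norm_of_nonneg h0.le]
    simp only [norm_mul, hr, Complex.norm_real, mul_pow, Real.norm_eq_abs, sq_abs] at hfin2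
    exact hfin2
  -- the limit
  have lim : ∑ m ∈ Finset.range N, ‖c m‖ ^ 2 ≤ M ^ 2 * ∑ k ∈ Finset.range N, x k ^ 2 := by
    have t1 : Tendsto (fun r : ℝ => ∑ m ∈ Finset.range N, ‖c m‖ ^ 2 * (r ^ m) ^ 2) (𝓝[<] 1)
        (𝓝 (∑ m ∈ Finset.range N, ‖c m‖ ^ 2 * ((1 : ℝ) ^ m) ^ 2)) := by
      have : Continuous (fun r : ℝ => ∑ m ∈ Finset.range N, ‖c m‖ ^ 2 * (r ^ m) ^ 2) := by fun_prop
      exact (this.tendsto 1).mono_left nhdsWithin_le_nhds
    have t2 : Tendsto (fun r : ℝ => M ^ 2 * ∑ k ∈ Finset.range N, x k ^ 2 * (r ^ k) ^ 2) (𝓝[<] 1)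
        (𝓝 (M ^ 2 * ∑ k ∈ Finset.range N, x k ^ 2 * ((1 : ℝ) ^ k) ^ 2)) := by
      have : Continuous (fun r : ℝ => M ^ 2 * ∑ k ∈ Finset.range N, x k ^ 2 * (r ^ k) ^ 2) := by fun_prop
      exact (this.tendsto 1).mono_left nhdsWithin_le_nhds
    have h3 : ∀ᶠ r : ℝ in 𝓝[<] 1, ∑ m ∈ Finset.range N, ‖c m‖ ^ 2 * (r ^ m) ^ 2 ≤
        M ^ 2 * ∑ k ∈ Finset.range N, x k ^ 2 * (r ^ k) ^ 2 := by
      have : Ioo (0 : ℝ) 1 ∈ 𝓝[<] (1 : ℝ) := Ioo_mem_nhdsLT one_pos
      filter_upwards [this] with r hr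
      exact key r hr.1 hr.2
    have h4 := le_of_tendsto_of_tendsto t1 t2 h3
    simpa only [one_pow, mul_one] using h4
  refine le_trans (Finset.sum_le_sum fun n _ => ?_) lim
  have e : ∑ i ∈ Finset.range (n + 1), (b i).re * x (n - i) = (c n).re := by
    rw [hc, Complex.re_sum]
    refine Finset.sum_congr rfl fun i _ => ?_
    rw [Complex.re_mul_ofReal]
  show (∑ i ∈ Finset.range (n + 1), (b i).re * x (n - i)) ^ 2 ≤ _
  rw [e]
  exact sq_le_sq.2 (by rw [abs_norm]; exact Complex.abs_re_le_norm _)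

end Pool.Agent.Helper87.SLM
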